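import Pool.Agent.Helper48_LPY.Stmts
import Pool.Agent.Helper48_LPY.Basic

/-! LPY, module FPT (helper59): the fingerprint of a set. -/

set_option autoImplicit false

namespace Pool.Agent.LPY.H59

open Pool.Agent.LAX Pool.Agent.LPY

/-- `|ow p| ≤ 2 k0`. -/
theorem ow_le {V : Type} [Finite V] (Q : Set (V × V)) (δ : Lab) (k0 : ℕ)
    (h : ∀ x, (out Q x).ncard ≤ k0) (p : V × Lab) : (ow Q δ p).ncard ≤ 2 * k0 := by
  have h1 : ow Q δ p ⊆ (out Q p.1) ×ˢ ({p.2 + δ, p.2 + 2 * δ} : Set Lab) := by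
    intro p' hp
    simpa [ow, out] using hp
  have h2 := Set.ncard_le_ncard h1 (Set.toFinite _)
  rw [Set.ncard_prod] at h2
  have h3 : ({p.2 + δ, p.2 + 2 * δ} : Set Lab).ncard ≤ 2 := by
    refine (Set.ncard_insert_le _ _).trans ?_
    rw [Set.ncard_singleton]
  calc (ow Q δ p).ncard ≤ (out Q p.1).ncard * ({p.2 + δ, p.2 + 2 * δ} : Set Lab).ncard := h2
    _ ≤ k0 * 2 := Nat.mul_le_mul (h p.1) h3
    _ = 2 * k0 := by ring

/-- double counting -/
theorem dc {α : Type} [Finite α] (A Y : Set α) (R : α → α → Prop) (m : ℝ) (N : ℕ)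
    (hY : ∀ y ∈ Y, m ≤ ({x | x ∈ A ∧ R x y}.ncard : ℝ))
    (hN : ∀ x ∈ A, {y | R x y}.ncard ≤ N) : (Y.ncard : ℝ) * m ≤ N * A.ncard := by
  classical
  have := Fintype.ofFinite α
  have h1 : ∀ y ∈ Y, {x | x ∈ A ∧ R x y}.ncard = (Finset.bipartiteBelow R A.toFinset y).card := by
    intro y _
    rw [← Set.ncard_coe_finset]
    congr 1
    ext x
    simp [Finset.bipartiteBelow]
  have h2 : ∀ x ∈ A, (Finset.bipartiteAbove R Y.toFinset x).card ≤ N := by
    intro x hx
    refine le_trans ?_ (hN x hx)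
    rw [← Set.ncard_coe_finset]
    refine Set.ncard_le_ncard ?_ (Set.toFinite _)
    intro y hy
    simp [Finset.bipartiteAbove] at hy
    exact hy.2
  have h3 := Finset.sum_card_bipartiteAbove_eq_sum_card_bipartiteBelow (s := A.toFinset)
    (t := Y.toFinset) R
  have h4 : (Y.ncard : ℝ) * m ≤
      ((∑ y ∈ Y.toFinset, (Finset.bipartiteBelow R A.toFinset y).card : ℕ) : ℝ) := by
    push_cast
    rw [Set.ncard_eq_toFinset_card', ← nsmul_eq_mul, ← Finset.sum_const]
    refine Finset.sum_le_sum fun y hy => ?_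
    have hy' : y ∈ Y := by simpa using hy
    have h5 := hY y hy'
    rw [h1 y hy'] at h5
    exact h5
  have h6 : (∑ x ∈ A.toFinset, (Finset.bipartiteAbove R Y.toFinset x).card : ℕ) ≤
      A.ncard * N := by
    rw [Set.ncard_eq_toFinset_card', ← smul_eq_mul, ← Finset.sum_const]
    refine Finset.sum_le_sum fun x hx => ?_
    exact h2 x (by simpa using hx)
  rw [h3] at h6
  have h7 : ((∑ y ∈ Y.toFinset, (Finset.bipartiteBelow R A.toFinset y).card : ℕ) : ℝ) ≤
      A.ncard * N := by exact_mod_cast h6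
  linarith

/-- module FPT -/
theorem fpt (hhit : HitStmt) : FptStmt := by
  intro V _ Q δ k0 lam r β L Et Eh hk hlam hr hβ hout hNC A
  classical
  have hk' : (1 : ℝ) ≤ k0 := by exact_mod_cast hk
  have hD : (0 : ℝ) < k0 * r := by positivity
  have hlam0 : 0 < lam := by
    have : 0 ≤ Real.log (2 * k0) := Real.log_nonneg (by linarith)
    linarith
  obtain ⟨m, hm⟩ : ∃ m : ℝ, m = k0 * r / 64 := ⟨_, rfl⟩
  have hm0 : 0 < m := by rw [hm]; positivity
  let Y : Set (V × Lab) := {y | m ≤ ({x | x ∈ A ∧ y ∈ ow Q δ x}.ncard : ℝ)}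
  let rel : Set (A × Y) := {z | (z.2 : V × Lab) ∈ ow Q δ (z.1 : V × Lab)}
  have hinn : ∀ y : Y, (inn rel y).ncard =
      {x | x ∈ A ∧ (y : V × Lab) ∈ ow Q δ x}.ncard := by
    intro y
    rw [← Set.ncard_image_of_injective _ (Subtype.val_injective (p := fun x => x ∈ A))]
    congr 1
    ext x
    simp only [Set.mem_image, Set.mem_ofPred_eq, inn, rel]
    constructor
    · rintro ⟨z, hz, rfl⟩
      exact ⟨z.2, hz⟩
    · rintro ⟨h1, h2⟩
      exact ⟨⟨x, h1⟩, h2, rfl⟩
  have hcount : (Nat.card Y : ℝ) * m ≤ (2 * k0 : ℕ) * Nat.card A := by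
    have h := dc A Y (fun x y => y ∈ ow Q δ x) m (2 * k0) (fun y hy => hy)
      (fun x _ => ow_le Q δ k0 hout x)
    rw [Nat.card_coe_set_eq, Nat.card_coe_set_eq]
    exact h
  obtain ⟨T1, hT1, hT1c⟩ := hhit A Y rel m (2 * k0) hm0 (by linarith)
    (fun y => by rw [hinn y]; exact y.2) (by push_cast at hcount; exact hcount)
  let T0 : Set (V × Lab) := Subtype.val '' T1
  have hT0A : T0 ⊆ A := by
    rintro x ⟨z, _, rfl⟩
    exact z.2
  have hT0c : (T0.ncard : ℝ) ≤ 64 * lam / (k0 * r) * A.ncard := by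
    have e : T0.ncard = T1.ncard :=
      Set.ncard_image_of_injective _ Subtype.val_injective
    rw [e]
    have h2 : (Nat.card A : ℝ) / m * (2 + Real.log (2 * k0)) ≤ Nat.card A / m * lam :=
      mul_le_mul_of_nonneg_left hlam (by positivity)
    refine (hT1c.trans h2).trans (le_of_eq ?_)
    rw [hm, Nat.card_coe_set_eq]
    field_simp
  have hT0y : ∀ y, y ∉ SS Q δ T0 →
      ({x | x ∈ A ∧ y ∈ ow Q δ x}.ncard : ℝ) ≤ k0 * r / 64 := by
    intro y hy
    by_contra hc
    push Not at hc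
    have hyY : y ∈ Y := by
      show m ≤ _
      rw [hm]
      exact hc.le
    obtain ⟨x, hx, hxy⟩ := hT1 ⟨y, hyY⟩
    exact hy ⟨x, ⟨x, hx, rfl⟩, hxy⟩
  -- the maximiser
  let g : Set (V × Lab) → ℝ := fun T => r / 2 * (SS Q δ T).ncard -
    (L ∩ SS Q δ T).ncard - 2 * β * T.ncard
  obtain ⟨T, ⟨hT0T, hTA⟩, hmax⟩ := Set.exists_max_image {T : Set (V × Lab) | T0 ⊆ T ∧ T ⊆ A} g
    (Set.toFinite _) ⟨T0, subset_rfl, hT0A⟩
  refine ⟨T, hTA, ?_, ?_, ?_⟩
  · have h1 := hmax T0 ⟨subset_rfl, hT0A⟩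
    have h2 := (hNC T0 T hT0T).n0
    have hS : SS Q δ T0 ⊆ SS Q δ T := SS_mono hT0T
    have h3 : ((SS Q δ T \ SS Q δ T0).ncard : ℝ) + (SS Q δ T0).ncard = (SS Q δ T).ncard := by
      exact_mod_cast Set.ncard_sdiff_add_ncard_of_subset hS (Set.toFinite _)
    have h4 : ((L ∩ (SS Q δ T \ SS Q δ T0)).ncard : ℝ) + (L ∩ SS Q δ T0).ncard =
        (L ∩ SS Q δ T).ncard := by
      have e : L ∩ (SS Q δ T \ SS Q δ T0) = (L ∩ SS Q δ T) \ (L ∩ SS Q δ T0) := by
        ext z
        simp only [Set.mem_inter_iff, Set.mem_sdiff]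
        tauto
      rw [e]
      exact_mod_cast Set.ncard_sdiff_add_ncard_of_subset
        (Set.inter_subset_inter_right L hS) (Set.toFinite _)
    simp only [g] at h1
    have h5 : β * T.ncard ≤ β * (2 * T0.ncard) := by nlinarith
    have h6 : (T.ncard : ℝ) ≤ 2 * T0.ncard := le_of_mul_le_mul_left h5 hβ
    have h7 : 128 * lam / (k0 * r) * A.ncard = 2 * (64 * lam / (k0 * r) * A.ncard) := by ring
    rw [h7]
    linarith
  · intro x hx
    by_cases hxT : x ∈ T
    · have h0 : leak Q δ T x = 0 := by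
        unfold leak
        rw [Set.sdiff_eq_empty.mpr (ow_subset_SS hxT)]
        simp
      rw [h0]
      have : (0 : ℝ) ≤ (L ∩ (ow Q δ x \ SS Q δ T)).ncard := by positivity
      push_cast
      linarith
    · have h1 := hmax (T ∪ {x}) ⟨hT0T.trans Set.subset_union_left,
        Set.union_subset hTA (Set.singleton_subset_iff.mpr hx)⟩
      simp only [g, SS_union, SS_singleton] at h1
      have h2 : ((SS Q δ T ∪ ow Q δ x).ncard : ℝ) = (SS Q δ T).ncard + leak Q δ T x := by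
        have e : SS Q δ T ∪ ow Q δ x = SS Q δ T ∪ (ow Q δ x \ SS Q δ T) := by simp
        rw [e, Set.ncard_union_eq Set.disjoint_sdiff_right (Set.toFinite _) (Set.toFinite _)]
        push_cast
        rfl
      have h3 : ((L ∩ (SS Q δ T ∪ ow Q δ x)).ncard : ℝ) =
          (L ∩ SS Q δ T).ncard + (L ∩ (ow Q δ x \ SS Q δ T)).ncard := by
        have e : L ∩ (SS Q δ T ∪ ow Q δ x) =
            (L ∩ SS Q δ T) ∪ (L ∩ (ow Q δ x \ SS Q δ T)) := by
          ext z
          simp only [Set.mem_inter_iff, Set.mem_union, Set.mem_sdiff]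
          tauto
        rw [e, Set.ncard_union_eq ?_ (Set.toFinite _) (Set.toFinite _)]
        · push_cast
          rfl
        · rw [Set.disjoint_left]
          intro z hz hz2
          exact hz2.2.2 hz.2
      have h4 : ((T ∪ {x}).ncard : ℝ) = T.ncard + 1 := by
        have h5 : (T ∪ {x}).ncard = T.ncard + ({x} : Set (V × Lab)).ncard := by
          refine Set.ncard_union_eq ?_ (Set.toFinite _) (Set.toFinite _)
          exact Set.disjoint_singleton_right.mpr hxT
        rw [h5, Set.ncard_singleton]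
        push_cast
        rfl
      rw [h2, h3, h4] at h1
      linarith
  · intro y hy
    exact hT0y y fun h => hy (SS_mono hT0T h)

end Pool.Agent.LPY.H59
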